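import Pool.Agent.R759.SRTrap

/-! # Simplicial refinements: preimages of extreme points can share a vertex -/

set_option autoImplicit false

namespace Pool.Agent.Results.MP_b5b962_gt.SharedVertex

open Pool.Agent.R759.SR

/-- For a simplex with vertices `e i`: the set of (indices of) vertices which have a positive
barycentric coefficient at some point of `S`. -/
def positiveVertices {E ι : Type*} [AddCommGroup E] [Module ℝ E] [Fintype ι] (e : ι → E)
    (S : Set E) : Set ι :=
  {i | ∃ w : ι → ℝ, (∀ j, 0 ≤ w j) ∧ ∑ j, w j = 1 ∧ ∑ j, w j • e j ∈ S ∧ 0 < w i}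

/-- The minimal face containing `S` of the simplex with vertices `e i`: the convex hull of the
vertices which have a positive barycentric coefficient at some point of `S`. -/
def minimalFace {E ι : Type*} [AddCommGroup E] [Module ℝ E] [Fintype ι] (e : ι → E)
    (S : Set E) : Set E :=
  convexHull ℝ (e '' positiveVertices e S)

/-- The set `f⁻¹(c)`. -/
def preimage {V E : Type*} [AddCommGroup V] [Module ℝ V] [AddCommGroup E] [Module ℝ E]
    {C : Set V} {T : Set E} (R : Refinement C T) (c : V) : Set E :=
  {x | ∃ h : x ∈ R.f.dom, R.f.toFun ⟨x, h⟩ = c}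

/-- The statement of the conjecture: for every non-simplicial polytope `C`, every simplicial
refinement of `(C, ΩC)` by a simplex `T` with vertices `e i`, and all extreme points `a ≠ b` of
`C`, the minimal faces of `T` which contain `f⁻¹(a)` and `f⁻¹(b)` are disjoint. -/
def DisjointFaces : Prop :=
  ∀ (V E : Type) [AddCommGroup V] [Module ℝ V] [FiniteDimensional ℝ V]
    [AddCommGroup E] [Module ℝ E] [FiniteDimensional ℝ E] (C : Set V),
    IsPolytope C → (∀ N : ℕ, ¬ IsSimplex C N) →
    ∀ (ι : Type) [Fintype ι] (e : ι → E), AffineIndependent ℝ e →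
    ∀ T : Set E, T = convexHull ℝ (Set.range e) →
    ∀ R : Refinement C T, ∀ a ∈ C.extremePoints ℝ, ∀ b ∈ C.extremePoints ℝ, a ≠ b →
      minimalFace e (preimage R a) ∩ minimalFace e (preimage R b) = ∅

/-- The conjecture is false. -/
theorem result : ¬ DisjointFaces := by
  classical
  intro hconj
  obtain ⟨R, hR, hRF⟩ := exists_trapRefinement
  obtain ⟨e, he⟩ : ∃ e : Fin 5 → Fin 5 → ℝ, e = fun i => Pi.single i 1 := ⟨_, rfl⟩
  have hsum : ∀ w : Fin 5 → ℝ, ∑ j, w j • e j = w := by
    intro w
    rw [he]
    funext i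
    rw [Finset.sum_apply]
    simp [Pi.single_apply]
  have hind : AffineIndependent ℝ e := by
    have h := (Pi.basisFun ℝ (Fin 5)).linearIndependent.affineIndependent
    have e' : e = Pi.basisFun ℝ (Fin 5) := by
      funext i
      rw [Pi.basisFun_apply, he]
    rw [e']
    exact h
  have hT : stdSimplex ℝ (Fin 5) = convexHull ℝ (Set.range e) := by
    rw [he, convexHull_rangle_single_eq_stdSimplex]
  have hext : ∀ k, trapV k ∈ trap.extremePoints ℝ := fun k => by
    rw [trap_extreme]
    exact ⟨k, rfl⟩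
  have hdom : ∀ k, trapX k ∈ R.f.dom := fun k => by
    rw [hR]
    exact subset_convexHull ℝ _ ⟨k, rfl⟩
  have hne : trapV 0 ≠ trapV 1 := fun h => by
    have := trapV_injective h
    exact absurd this (by decide)
  have key := hconj (ℝ × ℝ) (Fin 5 → ℝ) trap trap_isPolytope trap_not_simplex (Fin 5) e hind
    _ hT R _ (hext 0) _ (hext 1) hne
  have hmem : ∀ k : Fin 4, 0 < trapX k 1 → e 1 ∈ minimalFace e (preimage R (trapV k)) := by
    intro k hk
    refine subset_convexHull ℝ _ ⟨1, ⟨trapX k, (trapX_mem k).1, (trapX_mem k).2, ?_, hk⟩, rfl⟩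
    rw [hsum]
    exact ⟨hdom k, by rw [hRF, trapF_X]⟩
  have h0 := hmem 0 (by simp [trapX])
  have h1 := hmem 1 (by simp [trapX])
  have : e 1 ∈ (∅ : Set (Fin 5 → ℝ)) := key ▸ ⟨h0, h1⟩
  exact this

end Pool.Agent.Results.MP_b5b962_gt.SharedVertex
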